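import Mathlib
import Pool.Agent.W616.QDefs
import Pool.Agent.Y472.RH.Main

/-!
# Infinitely many pairs, and arbitrarily large sets, of rational homology spheres not separated by all
quantum `G` and `PG` invariants

The starting result `TorusMutation` treats one pair of rational homology spheres: the surgeries of
framing 3 on `K # K` and on `K # rK`, for the closure `K` of the three-strand braid `wordK` (`rK` is `K`
with the reversed orientation).  Here: all framings `f ≠ 0` divisible by 3 (the first homology groups are
cyclic of order `|f|`, so infinitely many different pairs), two summands from an infinite set of closed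
three-strand braids, and, for every `n`, `n + 1` rational homology spheres with different
fundamental groups and the same invariants.
-/

set_option autoImplicit false

namespace Pool.Agent.Results.MP_76ff03_gt.InfinitelyManyPairs

open Pool.Agent.W616

/-- `Inserted w`: the braid word `w` on three strands is obtained from `wordK` by inserting, any number of
times and at any places, the 84-th power of a generator or of its inverse. (So in
`wordK = σ_1^-3 σ_2^2 σ_1^-2 σ_2 σ_1^-1 σ_2` one may change all the exponents by multiples of 84.) -/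
inductive Inserted : Braid 2 → Prop
  | base : Inserted wordK
  | insert (u v : Braid 2) (g : Fin 2 × Bool) (h : Inserted (u ++ v)) :
      Inserted (u ++ List.replicate 84 g ++ v)

/-- For braid words `w₁`, `w₂` on three strands with the closures `K₁`, `K₂`, the closure of this braid
word on five strands is `K₁ # K₂` if `c = false` and `K₁ # rK₂` if `c = true` (the closure of the word
read backwards is `K₂` with the reversed orientation). -/
def sumWord (w₁ w₂ : Braid 2) (c : Bool) : Braid 4 :=
  left3 w₁ ++ right3 (if c then w₂.reverse else w₂)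

/-- The fundamental group of the connected sum, over `i`, of the 3-manifolds obtained by surgery with
framing `f` on `K₁ # K₂` (if `c i = false`) or on `K₁ # rK₂` (if `c i = true`): a free product. -/
abbrev PiOneSum (w₁ w₂ : Braid 2) (f : ℤ) {n : ℕ} (c : Fin n → Bool) : Type :=
  Monoid.CoprodI fun i => pi1 (sumWord w₁ w₂ (c i)) 2 f

/-- The quantum `G` invariant of the same connected sum (`τ_r^G(S^3) = 1`, so it is multiplicative). -/
noncomputable def tauGSum (Δ : CartanDatum) (r : ℕ) (w₁ w₂ : Braid 2) (f : ℤ) {n : ℕ}
    (c : Fin n → Bool) : ℂ := ∏ i, tauG Δ r (sumWord w₁ w₂ (c i)) f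

/-- The quantum `PG` invariant of the same connected sum. -/
noncomputable def tauPGSum (Δ : CartanDatum) (r : ℕ) (w₁ w₂ : Braid 2) (f : ℤ) {n : ℕ}
    (c : Fin n → Bool) : ℂ := ∏ i, tauPG Δ r (sumWord w₁ w₂ (c i)) f

theorem ins_of {w : Braid 2} (h : Inserted w) : Pool.Agent.Y472.RH.Ins wordK w := by
  induction h with
  | base => exact Pool.Agent.Y472.RH.Ins.refl
  | insert u v g _ ih => exact Pool.Agent.Y472.RH.Ins.insert u v g ih

/-- 1. For all closures `K₁`, `K₂` of braids on three strands (if they are knots) the quantum `G` and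
`PG` invariants of the surgeries on `K₁ # K₂` and on `K₁ # rK₂` agree, for all framings, all `G` and `r`.
2. Let `K₁`, `K₂` be the closures of two words from the infinite set `Inserted`, and let `f` be any
nonzero framing divisible by 3. Then `K₁ # K₂` and `K₁ # rK₂` are knots; the manifolds `M`, `N` obtained
from them by surgery with framing `f` are rational homology spheres with first homology group cyclic of
order `|f|`; their fundamental groups are not isomorphic, so they are not homeomorphic; moreover, for
every `n`, two connected sums of `n` copies of `M` or `N` with different numbers of copies of `N` have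
non-isomorphic fundamental groups (so there are `n + 1` different ones); and all the quantum `G` and `PG`
invariants of these connected sums agree, for every `G` and every `r`. -/
theorem result :
    (∀ (w₁ w₂ : Braid 2) (f : ℤ) (Δ : CartanDatum) (r : ℕ),
      tauG Δ r (sumWord w₁ w₂ false) f = tauG Δ r (sumWord w₁ w₂ true) f ∧
      tauPG Δ r (sumWord w₁ w₂ false) f = tauPG Δ r (sumWord w₁ w₂ true) f) ∧
    ∀ w₁ w₂ : Braid 2, Inserted w₁ → Inserted w₂ →
      (∀ c, IsKnot (sumWord w₁ w₂ c)) ∧
      ∀ f : ℤ, f ≠ 0 → 3 ∣ f →
        (∀ c, Nonempty (Abelianization (pi1 (sumWord w₁ w₂ c) 2 f) ≃*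
          Multiplicative (ZMod f.natAbs))) ∧
        IsEmpty (pi1 (sumWord w₁ w₂ false) 2 f ≃* pi1 (sumWord w₁ w₂ true) 2 f) ∧
        (∀ (n : ℕ) (c c' : Fin n → Bool),
          (Finset.univ.filter fun i => c i = true).card ≠
            (Finset.univ.filter fun i => c' i = true).card →
          IsEmpty (PiOneSum w₁ w₂ f c ≃* PiOneSum w₁ w₂ f c')) ∧
        ∀ (Δ : CartanDatum) (r n : ℕ) (c c' : Fin n → Bool),
          tauGSum Δ r w₁ w₂ f c = tauGSum Δ r w₁ w₂ f c' ∧
          tauPGSum Δ r w₁ w₂ f c = tauPGSum Δ r w₁ w₂ f c' :=
  ⟨fun w₁ w₂ f Δ r => ⟨Pool.Agent.Y472.RH.tauG_all Δ r w₁ w₂ f false true,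
      Pool.Agent.Y472.RH.tauPG_all Δ r w₁ w₂ f false true⟩,
    fun w₁ w₂ h₁ h₂ => ⟨Pool.Agent.Y472.RH.isKnot_all w₁ w₂ (ins_of h₁) (ins_of h₂),
      fun f _ h3 => ⟨fun c => Pool.Agent.Y472.RH.ab_all w₁ w₂ (ins_of h₁) (ins_of h₂) c f,
        Pool.Agent.Y472.RH.pi1_not_iso w₁ w₂ (ins_of h₁) (ins_of h₂) f h3,
        fun _ c c' hc => Pool.Agent.Y472.RH.coprod_not_iso w₁ w₂ (ins_of h₁) (ins_of h₂) f h3 c c' hc,
        fun Δ r _ c c' => ⟨Finset.prod_congr rfl fun i _ =>
            Pool.Agent.Y472.RH.tauG_all Δ r w₁ w₂ f (c i) (c' i),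
          Finset.prod_congr rfl fun i _ =>
            Pool.Agent.Y472.RH.tauPG_all Δ r w₁ w₂ f (c i) (c' i)⟩⟩⟩⟩

end Pool.Agent.Results.MP_76ff03_gt.InfinitelyManyPairs
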